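import Pool.Agent.MVO.StmtsG

set_option autoImplicit false

/-! # Squad MVO, row ORD (helper28) -/

namespace Pool.Agent.MVO.H28

open Pool.Agent.Helper14_MV Pool.Agent.Helper2_MV

/-- restriction to two letters -/
def hxy (x y : ℕ) : ℕ → List ℕ := fun c => if c = x then [0] else if c = y then [1] else []

theorem mem_gb {m : ℕ → ℕ} {l : List ℕ} {c : ℕ} (h : c ∈ gb m l) : c ∈ l := by
  unfold gb at h
  rw [List.mem_flatMap] at h
  obtain ⟨d, hd, hc⟩ := h
  rw [List.eq_of_mem_replicate hc]
  exact hd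

theorem gb_append (m : ℕ → ℕ) (l l' : List ℕ) : gb m (l ++ l') = gb m l ++ gb m l' := by
  unfold gb
  exact List.flatMap_append

theorem gb_cons (m : ℕ → ℕ) (c : ℕ) (l : List ℕ) :
    gb m (c :: l) = List.replicate (m c) c ++ gb m l := by
  unfold gb
  exact List.flatMap_cons

theorem flat_none (m : ℕ → ℕ) {x y : ℕ} {l : List ℕ} (hx : x ∉ l) (hy : y ∉ l) :
    (gb m l).flatMap (hxy x y) = [] := by
  rw [List.flatMap_eq_nil_iff]
  intro c hc
  have hcl := mem_gb hc
  have h1 : c ≠ x := by
    rintro rfl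
    exact hx hcl
  have h2 : c ≠ y := by
    rintro rfl
    exact hy hcl
  unfold hxy
  rw [if_neg h1, if_neg h2]

theorem flat_x (x y t : ℕ) : (List.replicate t x).flatMap (hxy x y) = List.replicate t 0 := by
  induction t with
  | zero => rfl
  | succ t ih =>
    rw [List.replicate_succ, List.flatMap_cons, ih, List.replicate_succ]
    simp [hxy]

theorem flat_y {x y : ℕ} (hxy' : x ≠ y) (t : ℕ) :
    (List.replicate t y).flatMap (hxy x y) = List.replicate t 1 := by
  induction t with
  | zero => rfl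
  | succ t ih =>
    rw [List.replicate_succ, List.flatMap_cons, ih, List.replicate_succ]
    simp [hxy, Ne.symm hxy']

theorem form_xy (m : ℕ → ℕ) {x y : ℕ} (hne : x ≠ y) {P Q R : List ℕ}
    (hl : (P ++ x :: (Q ++ y :: R)).Nodup) :
    (gb m (P ++ x :: (Q ++ y :: R))).flatMap (hxy x y) =
      List.replicate (m x) 0 ++ List.replicate (m y) 1 := by
  have hx1 : x ∉ P := by
    intro h
    exact (List.nodup_append.1 hl).2.2 x h x (by simp) rfl
  have hy1 : y ∉ P := by
    intro h
    exact (List.nodup_append.1 hl).2.2 y h y (by simp) rfl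
  have h2 := (List.nodup_append.1 hl).2.1
  rw [List.nodup_cons] at h2
  have hx2 : x ∉ Q := fun h => h2.1 (List.mem_append_left _ h)
  have hx3 : x ∉ R := fun h => h2.1 (List.mem_append_right _ (List.mem_cons_of_mem _ h))
  have h3 := List.nodup_append.1 h2.2
  have hy2 : y ∉ Q := by
    intro h
    exact h3.2.2 y h y (by simp) rfl
  have hy3 : y ∉ R := (List.nodup_cons.1 h3.2.1).1
  rw [gb_append, gb_cons, gb_append, gb_cons, List.flatMap_append, List.flatMap_append,
    List.flatMap_append, List.flatMap_append, flat_none m hx1 hy1, flat_none m hx2 hy2,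
    flat_none m hx3 hy3, flat_x, flat_y hne]
  simp

theorem form_yx (m : ℕ → ℕ) {x y : ℕ} (hne : x ≠ y) {P Q R : List ℕ}
    (hl : (P ++ y :: (Q ++ x :: R)).Nodup) :
    (gb m (P ++ y :: (Q ++ x :: R))).flatMap (hxy x y) =
      List.replicate (m y) 1 ++ List.replicate (m x) 0 := by
  have hx1 : y ∉ P := by
    intro h
    exact (List.nodup_append.1 hl).2.2 y h y (by simp) rfl
  have hy1 : x ∉ P := by
    intro h
    exact (List.nodup_append.1 hl).2.2 x h x (by simp) rfl
  have h2 := (List.nodup_append.1 hl).2.1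
  rw [List.nodup_cons] at h2
  have hx2 : y ∉ Q := fun h => h2.1 (List.mem_append_left _ h)
  have hx3 : y ∉ R := fun h => h2.1 (List.mem_append_right _ (List.mem_cons_of_mem _ h))
  have h3 := List.nodup_append.1 h2.2
  have hy2 : x ∉ Q := by
    intro h
    exact h3.2.2 x h x (by simp) rfl
  have hy3 : x ∉ R := (List.nodup_cons.1 h3.2.1).1
  rw [gb_append, gb_cons, gb_append, gb_cons, List.flatMap_append, List.flatMap_append,
    List.flatMap_append, List.flatMap_append, flat_none m hy1 hx1, flat_none m hy2 hx2,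
    flat_none m hy3 hx3, flat_x, flat_y hne]
  simp

/-- both orders are impossible -/
theorem not_both {x y : ℕ} (hne : x ≠ y) {l P Q R P' Q' R' : List ℕ} (hl : l.Nodup)
    (h1 : l = P ++ x :: (Q ++ y :: R)) (h2 : l = P' ++ y :: (Q' ++ x :: R')) : False := by
  have e1 := form_xy (fun _ => 1) hne (h1 ▸ hl)
  have e2 := form_yx (fun _ => 1) hne (h2 ▸ hl)
  rw [← h1] at e1
  rw [← h2, e1] at e2
  simp at e2

theorem two_forms {x y : ℕ} (hne : x ≠ y) {l : List ℕ} (hx : x ∈ l) (hy : y ∈ l) :
    (∃ P Q R, l = P ++ x :: (Q ++ y :: R)) ∨ ∃ P Q R, l = P ++ y :: (Q ++ x :: R) := by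
  obtain ⟨P, S, rfl⟩ := List.append_of_mem hx
  rw [List.mem_append, List.mem_cons] at hy
  rcases hy with hy | hy | hy
  · obtain ⟨P', Q, rfl⟩ := List.append_of_mem hy
    right
    exact ⟨P', Q, S, by simp⟩
  · exact absurd hy.symm hne
  · obtain ⟨Q, R, rfl⟩ := List.append_of_mem hy
    left
    exact ⟨P, Q, R, rfl⟩

open Classical in
/-- `y` is before `x` -/
noncomputable def bef (x y : ℕ) (l : List ℕ) : Bool :=
  decide (∃ P Q R, l = P ++ y :: (Q ++ x :: R))

theorem bef_true {x y : ℕ} {l : List ℕ} (h : ∃ P Q R, l = P ++ y :: (Q ++ x :: R)) :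
    bef x y l = true := by
  classical
  unfold bef
  rw [decide_eq_true_iff]
  exact h

theorem bef_false {x y : ℕ} {l : List ℕ} (h : ¬ ∃ P Q R, l = P ++ y :: (Q ++ x :: R)) :
    bef x y l = false := by
  classical
  unfold bef
  rw [decide_eq_false_iff_not]
  exact h

theorem flat_bl (m : ℕ → ℕ) {x y : ℕ} (hne : x ≠ y) {l : List ℕ} (hl : l.Nodup) (hx : x ∈ l)
    (hy : y ∈ l) : (gb m l).flatMap (hxy x y) = bl (m x) (m y) (bef x y l) := by
  by_cases h : ∃ P Q R, l = P ++ y :: (Q ++ x :: R)
  · rw [bef_true h]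
    obtain ⟨P, Q, R, rfl⟩ := h
    rw [form_yx m hne hl]
    rfl
  · rw [bef_false h]
    rcases two_forms hne hx hy with ⟨P, Q, R, rfl⟩ | h'
    · rw [form_xy m hne hl]
      rfl
    · exact absurd h' h

theorem count_zero_flat {x y : ℕ} (C : List ℕ) : (C.flatMap (hxy x y)).count 0 = C.count x := by
  induction C with
  | nil => rfl
  | cons c C ih =>
    rw [List.flatMap_cons, List.count_append, ih, List.count_cons]
    unfold hxy
    by_cases h1 : c = x
    · simp [h1, Nat.add_comm]
    · by_cases h2 : c = y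
      · rw [if_neg h1, if_pos h2]
        simp [h1]
      · rw [if_neg h1, if_neg h2]
        simp [h1]

theorem count_one_flat {x y : ℕ} (hne : x ≠ y) (C : List ℕ) :
    (C.flatMap (hxy x y)).count 1 = C.count y := by
  induction C with
  | nil => rfl
  | cons c C ih =>
    rw [List.flatMap_cons, List.count_append, ih, List.count_cons]
    unfold hxy
    by_cases h1 : c = x
    · rw [if_pos h1]
      have : ¬ c = y := fun h => hne (h1.symm.trans h)
      simp [this]
    · by_cases h2 : c = y
      · rw [if_neg h1, if_pos h2]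
        simp [h2, Nat.add_comm]
      · rw [if_neg h1, if_neg h2]
        simp [h2]

theorem mem_flat {x y c : ℕ} {C : List ℕ} (h : c ∈ C.flatMap (hxy x y)) : c = 0 ∨ c = 1 := by
  rw [List.mem_flatMap] at h
  obtain ⟨d, _, hc⟩ := h
  unfold hxy at hc
  split_ifs at hc
  · left; simpa using hc
  · right; simpa using hc
  · simp at hc

theorem count_gb (m : ℕ → ℕ) {l : List ℕ} (hl : l.Nodup) {c : ℕ} (hc : c ∈ l) :
    (gb m l).count c = m c := by
  induction l with
  | nil => simp at hc
  | cons d l ih =>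
    rw [gb_cons, List.count_append]
    rw [List.nodup_cons] at hl
    rcases List.mem_cons.1 hc with rfl | hc'
    · have h0 : (gb m l).count c = 0 := List.count_eq_zero.2 fun h => hl.1 (mem_gb h)
      rw [h0, List.count_replicate_self, Nat.add_zero]
    · have hne : d ≠ c := fun h => hl.1 (h ▸ hc')
      rw [ih hl.2 hc', List.count_replicate, if_neg (by simpa using hne), Nat.zero_add]

theorem gb_perm (m : ℕ → ℕ) {l l' : List ℕ} (h : l.Perm l') : (gb m l).Perm (gb m l') := by
  unfold gb
  exact h.flatMap_right _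

theorem blkOk_gb {k : ℕ} {X : List ℕ} {n : ℕ → ℕ → ℕ} {D : ℕ → List ℕ} (h : GData k X n D) :
    BlkOk k (fun j => gb (n j) (D j)) := by
  intro j _ c hc
  exact h.ns c ((h.perm j).mem_iff.1 (mem_gb hc))

theorem blkOk_flat (k x y : ℕ) (C : ℕ → List ℕ) : BlkOk k (fun j => (C j).flatMap (hxy x y)) := by
  intro j _ c hc hs
  rcases mem_flat hc with rfl | rfl
  · omega
  · omega

/-- with the rigid index `i`, one exchange in block `i` gives all of them -/
theorem all_ex {β θ : FIC} (hβθ : β ≤ θ) {k i : ℕ} {a b : ℕ → ℕ}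
    (hr : ∀ e e' : ℕ → Bool, e i = e' i → RR β (w2 k a b e) (w2 k a b e')) {e0 e1 : ℕ → Bool}
    (h0 : e0 i = false) (h1 : e1 i = true) (h : RR θ (w2 k a b e0) (w2 k a b e1)) :
    ∀ e, Ex θ k a b e i := by
  have hR : ∀ e e' : ℕ → Bool, e i = e' i → RR θ (w2 k a b e) (w2 k a b e') :=
    fun e e' he => hβθ _ _ (hr e e' he)
  intro e
  unfold Ex
  cases hei : e i with
  | false =>
    have h2 : (flp e i) i = e1 i := by
      unfold flp
      rw [if_pos rfl, hei, h1]
      rfl
    exact θ.trans (hR e e0 (hei.trans h0.symm)) (θ.trans h (hR e1 _ h2.symm))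
  | true =>
    have h2 : (flp e i) i = e0 i := by
      unfold flp
      rw [if_pos rfl, hei, h0]
      rfl
    exact θ.trans (hR e e1 (hei.trans h1.symm)) (θ.trans (RR.symm h) (hR e0 _ h2.symm))

theorem step {β : FIC} (hR : Rig β) (hSW : SW β) (hT : Two β) {ρ σ τ : FIC} (hβρ : β ≤ ρ)
    (hβσ : β ≤ σ) (hβτ : β ≤ τ) (hρ : NC2 ρ) (hσ : NC2 σ) {k : ℕ} {X : List ℕ}
    {n : ℕ → ℕ → ℕ} {D D' : ℕ → List ℕ} (hD : GData k X n D) (hD' : ∀ j, (D' j).Perm X)
    (hτ : RR τ (gw k n D) (gw k n D'))
    (hch : Relation.ReflTransGen (StA ρ σ k) (fun j => gb (n j) (D j))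
      (fun j => gb (n j) (D' j))) {i : ℕ} (hi : i ≤ k) {l2 : List ℕ}
    (hex : Exch (D' i) (D i) l2) :
    RR ρ (gw k n D) (gw k n (Function.update D i l2)) ∨
      RR (FIC.inf σ τ) (gw k n D) (gw k n (Function.update D i l2)) := by
  obtain ⟨A, B, x, y, hDi, rfl, P, Q, R, hD'i⟩ := hex
  have hGD' : GData k X n D' := ⟨hD.nodup, hD.ns, hD.mult, hD'⟩
  have hnd : ∀ j, (D j).Nodup := fun j => (hD.perm j).nodup_iff.2 hD.nodup
  have hnd' : ∀ j, (D' j).Nodup := fun j => (hD' j).nodup_iff.2 hD.nodup
  have hxX : x ∈ X := (hD.perm i).mem_iff.1 (by rw [hDi]; simp)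
  have hyX : y ∈ X := (hD.perm i).mem_iff.1 (by rw [hDi]; simp)
  have hne : x ≠ y := by
    intro h
    have h1 := hnd i
    rw [hDi, h] at h1
    have h2 := (List.nodup_append.1 h1).2.1
    rw [List.nodup_cons] at h2
    exact h2.1 (List.mem_cons_self ..)
  have hxD : ∀ j, x ∈ D j := fun j => (hD.perm j).mem_iff.2 hxX
  have hyD : ∀ j, y ∈ D j := fun j => (hD.perm j).mem_iff.2 hyX
  have hxD' : ∀ j, x ∈ D' j := fun j => (hD' j).mem_iff.2 hxX
  have hyD' : ∀ j, y ∈ D' j := fun j => (hD' j).mem_iff.2 hyX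
  have hda : 2 ≤ deg k (fun j => n j x) := hD.mult x hxX
  have hdb : 2 ≤ deg k (fun j => n j y) := hD.mult y hyX
  obtain ⟨r, hr⟩ := hR k (fun j => n j x) (fun j => n j y) hda hdb
  have hswρ : (∀ e, Ex ρ k (fun j => n j x) (fun j => n j y) e i) →
      RR ρ (gw k n D) (gw k n (Function.update D i (A ++ y :: x :: B))) :=
    hSW ρ hβρ k X n D hD i hi A B x y hDi
  by_cases hri : r = i
  · subst hri
    -- the two letter words
    have e1 : asm k (fun j => (gb (n j) (D j)).flatMap (hxy x y)) =
        w2 k (fun j => n j x) (fun j => n j y) (fun j => bef x y (D j)) := by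
      unfold w2
      exact asm_congr fun j _ => flat_bl (n j) hne (hnd j) (hxD j) (hyD j)
    have e2 : asm k (fun j => (gb (n j) (D' j)).flatMap (hxy x y)) =
        w2 k (fun j => n j x) (fun j => n j y) (fun j => bef x y (D' j)) := by
      unfold w2
      exact asm_congr fun j _ => flat_bl (n j) hne (hnd' j) (hxD' j) (hyD' j)
    have hb0 : bef x y (D r) = false := by
      apply bef_false
      rintro ⟨P', Q', R', h⟩
      exact not_both hne (hnd r) (P := A) (Q := []) (R := B) (by rw [hDi]; simp) h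
    have hb1 : bef x y (D' r) = true := bef_true ⟨P, Q, R, hD'i⟩
    have hτ2 : RR τ (w2 k (fun j => n j x) (fun j => n j y) (fun j => bef x y (D j)))
        (w2 k (fun j => n j x) (fun j => n j y) (fun j => bef x y (D' j))) := by
      rw [← e1, ← e2]
      exact rr_sub τ (hxy x y) (blkOk_gb hD) (blkOk_gb hGD') hτ
    have hchain : ∀ C : ℕ → List ℕ,
        Relation.ReflTransGen (StA ρ σ k) (fun j => gb (n j) (D j)) C →
        deg k (fun j => (C j).count x) = deg k (fun j => n j x) ∧
        deg k (fun j => (C j).count y) = deg k (fun j => n j y) ∧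
        (RR β (w2 k (fun j => n j x) (fun j => n j y) (fun j => bef x y (D j)))
            (asm k (fun j => (C j).flatMap (hxy x y))) ∨
          (∀ e, Ex ρ k (fun j => n j x) (fun j => n j y) e r) ∨
          (∀ e, Ex σ k (fun j => n j x) (fun j => n j y) e r)) := by
      intro C hC
      induction hC with
      | refl =>
        refine ⟨?_, ?_, Or.inl ?_⟩
        · congr 1
          funext j
          exact count_gb (n j) (hnd j) (hxD j)
        · congr 1
          funext j
          exact count_gb (n j) (hnd j) (hyD j)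
        · rw [e1]
          exact RR.refl _
      | tail hC1 hst ih =>
        rename_i C1 C2
        obtain ⟨hB1, hB2, hdeg, hrr⟩ := hst
        obtain ⟨ihx, ihy, ih3⟩ := ih
        have hx2 : deg k (fun j => (C2 j).count x) = deg k (fun j => n j x) := by
          rw [← hdeg x, ihx]
        have hy2 : deg k (fun j => (C2 j).count y) = deg k (fun j => n j y) := by
          rw [← hdeg y, ihy]
        refine ⟨hx2, hy2, ?_⟩
        rcases ih3 with ih3 | ih3
        · have hx3 : deg k (fun j => ((C2 j).flatMap (hxy x y)).count 0) =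
              deg k (fun j => n j x) := by
            rw [← hx2]
            congr 1
            funext j
            exact count_zero_flat _
          have hy3 : deg k (fun j => ((C2 j).flatMap (hxy x y)).count 1) =
              deg k (fun j => n j y) := by
            rw [← hy2]
            congr 1
            funext j
            exact count_one_flat hne _
          rcases hrr with hrr | hrr
          · have h1 : RR ρ (w2 k (fun j => n j x) (fun j => n j y) (fun j => bef x y (D j)))
                (asm k (fun j => (C2 j).flatMap (hxy x y))) :=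
              ρ.trans (hβρ _ _ ih3) (rr_sub ρ (hxy x y) hB1 hB2 hrr)
            rcases hT ρ hβρ hρ k _ _ _ (fun j => (C2 j).flatMap (hxy x y)) hda hdb
              (blkOk_flat k x y C2) (fun j _ c hc => mem_flat hc) hx3 hy3 h1 with h2 | h2
            · exact Or.inl h2
            · exact Or.inr (Or.inl fun e => h2 e r hi)
          · have h1 : RR σ (w2 k (fun j => n j x) (fun j => n j y) (fun j => bef x y (D j)))
                (asm k (fun j => (C2 j).flatMap (hxy x y))) :=
              σ.trans (hβσ _ _ ih3) (rr_sub σ (hxy x y) hB1 hB2 hrr)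
            rcases hT σ hβσ hσ k _ _ _ (fun j => (C2 j).flatMap (hxy x y)) hda hdb
              (blkOk_flat k x y C2) (fun j _ c hc => mem_flat hc) hx3 hy3 h1 with h2 | h2
            · exact Or.inl h2
            · exact Or.inr (Or.inr fun e => h2 e r hi)
        · exact Or.inr ih3
    rcases (hchain _ hch).2.2 with h | h | h
    · rw [e2] at h
      left
      apply hswρ
      intro e
      exact hβρ _ _ (all_ex (θ := β) (fun _ _ h => h) hr hb0 hb1 h e)
    · exact Or.inl (hswρ h)
    · right
      have hβi : β ≤ FIC.inf σ τ := fun u v h => ⟨hβσ u v h, hβτ u v h⟩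
      refine hSW (FIC.inf σ τ) hβi k X n D hD r hi A B x y hDi fun e => ?_
      exact ⟨h e, all_ex hβτ hr hb0 hb1 hτ2 e⟩
  · left
    apply hswρ
    intro e
    apply hβρ
    apply hr
    unfold flp
    rw [if_neg hri]

/-- the invariant of the sorting -/
def Inv (ρ σ τ : FIC) (k : ℕ) (X : List ℕ) (n : ℕ → ℕ → ℕ) (D' D : ℕ → List ℕ) : Prop :=
  GData k X n D ∧ RR τ (gw k n D) (gw k n D') ∧
    Relation.ReflTransGen (StA ρ σ k) (fun j => gb (n j) (D j)) (fun j => gb (n j) (D' j))

theorem exch_perm {l' l1 l2 : List ℕ} (h : Exch l' l1 l2) : l2.Perm l1 := by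
  obtain ⟨A, B, x, y, rfl, rfl, _⟩ := h
  exact (List.Perm.swap x y B).append_left A

theorem step' {β : FIC} (hR : Rig β) (hSW : SW β) (hT : Two β) {ρ σ τ : FIC} (hβρ : β ≤ ρ)
    (hβσ : β ≤ σ) (hβτ : β ≤ τ) (hρτ : ρ ≤ τ) (hρ : NC2 ρ) (hσ : NC2 σ) {k : ℕ} {X : List ℕ}
    {n : ℕ → ℕ → ℕ} {D D' : ℕ → List ℕ} (hI : Inv ρ σ τ k X n D' D)
    (hD' : ∀ j, (D' j).Perm X) {i : ℕ} (hi : i ≤ k) {l2 : List ℕ}
    (hex : Exch (D' i) (D i) l2) :
    Inv ρ σ τ k X n D' (Function.update D i l2) ∧
      RR (FIC.sup ρ (FIC.inf σ τ)) (gw k n D) (gw k n (Function.update D i l2)) := by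
  obtain ⟨hD, hτ, hch⟩ := hI
  have hst := step hR hSW hT hβρ hβσ hβτ hρ hσ hD hD' hτ hch hi hex
  have hD2 : GData k X n (Function.update D i l2) := by
    refine ⟨hD.nodup, hD.ns, hD.mult, fun j => ?_⟩
    by_cases hj : j = i
    · subst hj
      rw [Function.update_self]
      exact (exch_perm hex).trans (hD.perm j)
    · rw [Function.update_of_ne hj]
      exact hD.perm j
  have hτ2 : RR τ (gw k n D) (gw k n (Function.update D i l2)) := by
    rcases hst with h | h
    · exact hρτ _ _ h
    · exact h.2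
  refine ⟨⟨hD2, τ.trans (RR.symm hτ2) hτ, ?_⟩, ?_⟩
  · refine Relation.ReflTransGen.head ?_ hch
    refine ⟨blkOk_gb hD2, blkOk_gb hD, fun c => ?_, ?_⟩
    · congr 1
      funext j
      exact (gb_perm (n j) ((hD2.perm j).trans (hD.perm j).symm)).count_eq c
    · rcases hst with h | h
      · exact Or.inl (RR.symm h)
      · exact Or.inr (RR.symm h.1)
  · rcases hst with h | h
    · exact FIC.le_sup_left _ _ _ _ h
    · exact FIC.le_sup_right _ _ _ _ h

theorem ord (hBub : BubStmt) : OrdStmt := by
  intro β hR hSW hT ρ σ τ hβρ hβσ hβτ hρτ hρ hσ k X n D D' hD hD' hτ hch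
  have key : ∀ m ≤ k + 1, ∃ D1 : ℕ → List ℕ, Inv ρ σ τ k X n D' D1 ∧
      RR (FIC.sup ρ (FIC.inf σ τ)) (gw k n D) (gw k n D1) ∧ ∀ j < m, D1 j = D' j := by
    intro m
    induction m with
    | zero =>
      intro _
      exact ⟨D, ⟨hD, hτ, hch⟩, RR.refl _, fun j hj => absurd hj (Nat.not_lt_zero j)⟩
    | succ m ih =>
      intro hm
      obtain ⟨D1, hI, hω, hj⟩ := ih (by omega)
      have hmk : m ≤ k := by omega
      have hb := hBub (D1 m) (D' m) ((hI.1.perm m).trans (hD' m).symm)
        ((hD' m).nodup_iff.2 hD.nodup)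
      have hloop : ∀ l : List ℕ, Relation.ReflTransGen (Exch (D' m)) (D1 m) l →
          Inv ρ σ τ k X n D' (Function.update D1 m l) ∧
          RR (FIC.sup ρ (FIC.inf σ τ)) (gw k n D1) (gw k n (Function.update D1 m l)) := by
        intro l hl
        induction hl with
        | refl =>
          rw [Function.update_eq_self]
          exact ⟨hI, RR.refl _⟩
        | tail hd hst ih2 =>
          rename_i l1 l2
          obtain ⟨hI1, hω1⟩ := ih2
          have h1 := step' hR hSW hT hβρ hβσ hβτ hρτ hρ hσ hI1 hD' hmk (l2 := l2)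
            (by rw [Function.update_self]; exact hst)
          rw [Function.update_idem] at h1
          exact ⟨h1.1, FIC.trans _ hω1 h1.2⟩
      obtain ⟨h1, h2⟩ := hloop _ hb
      refine ⟨_, h1, FIC.trans _ hω h2, fun j hjm => ?_⟩
      by_cases hjm' : j = m
      · subst hjm'
        rw [Function.update_self]
      · rw [Function.update_of_ne hjm']
        exact hj j (by omega)
  obtain ⟨D1, _, hω, hj⟩ := key (k + 1) le_rfl
  have e : gw k n D1 = gw k n D' := by
    unfold gw
    exact asm_congr fun j hjk => by rw [hj j (by omega)]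
  rw [← e]
  exact hω

end Pool.Agent.MVO.H28
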