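import Pool.Agent.MVO.StmtsA

/-!
# Squad MVO, row FMA: the free move in class a
-/

namespace Pool.Agent.MVO.H28

open Pool.Agent.Helper14_MV Pool.Agent.Helper2_MV Pool.Agent.MVO

/-- the substitution `0 ↦ x, 1 ↦ y, 2 ↦ q1, 3 ↦ q2` -/
private def sb (x y : ℕ) (q1 q2 : List ℕ) : ℕ → List ℕ := fun n =>
  if n = 0 then [x] else if n = 1 then [y] else if n = 2 then q1 else if n = 3 then q2 else []

private theorem s1_sub {β : FIC} (h : ClA β) (x y : ℕ) (p q1 q2 q3 : List ℕ) :
    RR β (p ++ x :: y :: (q1 ++ x :: (q2 ++ y :: q3)))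
      (p ++ y :: x :: (q1 ++ x :: (q2 ++ y :: q3))) := by
  have h1 := h.s1.sub (sb x y q1 q2)
  have h2 := ((RR.refl (β := β) p).append h1).append (RR.refl (β := β) q3)
  simpa [sb, List.flatMap_cons, List.append_assoc] using h2

private theorem s2_sub {β : FIC} (h : ClA β) (x y : ℕ) (p1 p2 q1 q2 : List ℕ) :
    RR β ((p1 ++ x :: p2) ++ x :: y :: (q1 ++ y :: q2))
      ((p1 ++ x :: p2) ++ y :: x :: (q1 ++ y :: q2)) := by
  have h1 := h.s2.sub (sb x y p2 q1)
  have h2 := ((RR.refl (β := β) p1).append h1).append (RR.refl (β := β) q2)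
  simpa [sb, List.flatMap_cons, List.append_assoc] using h2

/-- **FMA** -/
theorem fma : FmaStmt := by
  intro β hβ p q c d hc hd
  by_cases hcd : c = d
  · subst hcd
    exact RR.refl _
  · rcases hd with hd | hd
    · obtain ⟨p1, p2, rfl⟩ := List.append_of_mem hd
      obtain ⟨q1, q2, rfl⟩ := List.append_of_mem hc
      exact (s2_sub hβ d c p1 p2 q1 q2).symm
    · obtain ⟨q1, q', rfl⟩ := List.append_of_mem hc
      have hd' : d ∈ q1 ∨ d ∈ q' := by
        rcases List.mem_append.1 hd with h | h
        · exact Or.inl h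
        · rcases List.mem_cons.1 h with h | h
          · exact absurd h.symm hcd
          · exact Or.inr h
      rcases hd' with h | h
      · obtain ⟨a, b, rfl⟩ := List.append_of_mem h
        have := (s1_sub hβ d c p a b q').symm
        simpa [List.append_assoc] using this
      · obtain ⟨q2, q3, rfl⟩ := List.append_of_mem h
        exact s1_sub hβ c d p q1 q2 q3

end Pool.Agent.MVO.H28
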