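import Pool.Agent.MVO.StmtsF
import Pool.Agent.Helper35_MVO.FAA

/-!
# Squad MVO, row LOX: exchanges with a local letter in class c3
-/

set_option autoImplicit false

namespace Pool.Agent.MVO.H28

open Pool.Agent.Helper14_MV Pool.Agent.Helper2_MV Pool.Agent.MVO
open Pool.Agent.MVO.H35 (flp_same flp_ne mem_bl count0_bl count1_bl)

/-- the single exchanges inside a list of the letters 0, 1 -/
def SEx (ρ : FIC) (p q : List ℕ) (A B : ℕ) : Prop :=
  ∀ l1 l2 : List ℕ, (l1 ++ 0 :: 1 :: l2).count 0 = A → (l1 ++ 0 :: 1 :: l2).count 1 = B →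
    (∀ c ∈ l1, c = 0 ∨ c = 1) → (∀ c ∈ l2, c = 0 ∨ c = 1) →
      RR ρ (p ++ (l1 ++ 0 :: 1 :: l2) ++ q) (p ++ (l1 ++ 1 :: 0 :: l2) ++ q)

theorem sex_one {ρ : FIC} {p q : List ℕ} {A B : ℕ} (h : SEx ρ p q A B) (m : ℕ) :
    ∀ l1 l2 : List ℕ, (l1 ++ 0 :: (List.replicate m 1 ++ l2)).count 0 = A →
      (l1 ++ 0 :: (List.replicate m 1 ++ l2)).count 1 = B →
      (∀ c ∈ l1, c = 0 ∨ c = 1) → (∀ c ∈ l2, c = 0 ∨ c = 1) →
      RR ρ (p ++ (l1 ++ 0 :: (List.replicate m 1 ++ l2)) ++ q)
        (p ++ (l1 ++ (List.replicate m 1 ++ 0 :: l2)) ++ q) := by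
  induction m with
  | zero =>
    intro l1 l2 _ _ _ _
    simp only [List.replicate_zero, List.nil_append]
    exact RR.refl _
  | succ m ih =>
    intro l1 l2 h0 h1 hl1 hl2
    rw [List.replicate_succ] at h0 h1 ⊢
    simp only [List.cons_append] at h0 h1 ⊢
    have hl2' : ∀ c ∈ List.replicate m 1 ++ l2, c = 0 ∨ c = 1 := by
      intro c hc
      rcases List.mem_append.1 hc with hc | hc
      · exact Or.inr (List.eq_of_mem_replicate hc)
      · exact hl2 c hc
    have e1 := h l1 (List.replicate m 1 ++ l2) h0 h1 hl1 hl2'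
    have e2 := ih (l1 ++ [1]) l2
      (by rw [← h0]; simp only [List.count_append, List.count_cons]; simp; try omega)
      (by rw [← h1]; simp only [List.count_append, List.count_cons]; simp; try omega)
      (by
        intro c hc
        rcases List.mem_append.1 hc with hc | hc
        · exact hl1 c hc
        · exact Or.inr (List.mem_singleton.1 hc)) hl2
    simp only [List.append_assoc, List.singleton_append] at e1 e2 ⊢
    exact ρ.trans e1 e2

theorem sex_pow {ρ : FIC} {p q : List ℕ} {A B : ℕ} (h : SEx ρ p q A B) (m s : ℕ) :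
    ∀ l1 l2 : List ℕ, (l1 ++ (List.replicate s 0 ++ (List.replicate m 1 ++ l2))).count 0 = A →
      (l1 ++ (List.replicate s 0 ++ (List.replicate m 1 ++ l2))).count 1 = B →
      (∀ c ∈ l1, c = 0 ∨ c = 1) → (∀ c ∈ l2, c = 0 ∨ c = 1) →
      RR ρ (p ++ (l1 ++ (List.replicate s 0 ++ (List.replicate m 1 ++ l2))) ++ q)
        (p ++ (l1 ++ (List.replicate m 1 ++ (List.replicate s 0 ++ l2))) ++ q) := by
  induction s with
  | zero =>
    intro l1 l2 _ _ _ _
    simp only [List.replicate_zero, List.nil_append]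
    exact RR.refl _
  | succ s ih =>
    intro l1 l2 h0 h1 hl1 hl2
    rw [List.replicate_succ] at h0 h1 ⊢
    simp only [List.cons_append] at h0 h1 ⊢
    have e1 := ih (l1 ++ [0]) l2
      (by rw [← h0]; simp only [List.append_assoc, List.singleton_append])
      (by rw [← h1]; simp only [List.append_assoc, List.singleton_append])
      (by
        intro c hc
        rcases List.mem_append.1 hc with hc | hc
        · exact hl1 c hc
        · exact Or.inl (List.mem_singleton.1 hc)) hl2
    have e2 := sex_one h m l1 (List.replicate s 0 ++ l2)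
      (by rw [← h0]; simp only [List.count_append, List.count_cons]; omega)
      (by rw [← h1]; simp only [List.count_append, List.count_cons]; omega) hl1
      (by
        intro c hc
        rcases List.mem_append.1 hc with hc | hc
        · exact Or.inl (List.eq_of_mem_replicate hc)
        · exact hl2 c hc)
    simp only [List.append_assoc, List.singleton_append] at e1 e2 ⊢
    exact ρ.trans e1 e2

/-- two letters in a list of letters 0, 1 -/
theorem cob01 {w l : List ℕ} (h0 : 0 ∈ l) (h1 : 1 ∈ l) (hw : ∀ c ∈ l, 2 ≤ w.count c) :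
    Cob w l 0 1 ∨ Cob w l 1 0 := by
  obtain ⟨s, t, e⟩ := List.append_of_mem h0
  have h2 : 1 ∈ s ∨ 1 ∈ t := by
    rw [e] at h1
    rcases List.mem_append.1 h1 with h | h
    · exact Or.inl h
    · rcases List.mem_cons.1 h with h | h
      · exact absurd h (by decide)
      · exact Or.inr h
  rcases h2 with h2 | h2
  · obtain ⟨s1, s2, e2⟩ := List.append_of_mem h2
    right
    refine ⟨s1, s2, t, by rw [e, e2]; simp, ?_⟩
    intro z hz
    apply hw
    rw [e, e2]
    simp [hz]
  · obtain ⟨t1, t2, e2⟩ := List.append_of_mem h2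
    left
    refine ⟨s, t1, t2, by rw [e, e2], ?_⟩
    intro z hz
    apply hw
    rw [e, e2]
    simp [hz]

theorem cob_left {w l : List ℕ} (r : List ℕ) {x y : ℕ} (h : Cob w l x y) : Cob w (r ++ l) x y := by
  obtain ⟨l1, c, l2, e, h⟩ := h
  exact ⟨r ++ l1, c, l2, by rw [e]; simp, h⟩

theorem cob_right {w l : List ℕ} (r : List ℕ) {x y : ℕ} (h : Cob w l x y) : Cob w (l ++ r) x y := by
  obtain ⟨l1, c, l2, e, h⟩ := h
  exact ⟨l1, c, l2 ++ r, by rw [e]; simp, h⟩

theorem nil_of {l : List ℕ} (h : ∀ c ∈ l, c = 0 ∨ c = 1) (h0 : 0 ∉ l) (h1 : 1 ∉ l) : l = [] := by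
  rw [List.eq_nil_iff_forall_not_mem]
  intro c hc
  rcases h c hc with h | h
  · rw [h] at hc; exact h0 hc
  · rw [h] at hc; exact h1 hc

theorem sex_lox (hS : SgcStmt) {ρ : FIC} (hρ : ClC3 ρ) {p q : List ℕ} {A B N : ℕ} (hA : 2 ≤ A)
    (h0p : 0 ∉ p) (h0q : 0 ∉ q) (hN : p.count 1 + B + q.count 1 = N) (hN2 : 2 ≤ N)
    (hc : (1 ∈ p ∧ 1 ∈ q) ∨ (1 ∉ p ∧ 1 ∈ q ∧ (3 ≤ A ∨ 3 ≤ N)) ∨ (1 ∉ q ∧ 1 ∈ p ∧ 3 ≤ N)) :
    SEx ρ p q A B := by
  intro l1 l2 hc0 hc1 hl1 hl2
  have p0 : p.count 0 = 0 := List.count_eq_zero.2 h0p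
  have q0 : q.count 0 = 0 := List.count_eq_zero.2 h0q
  have ew : p ++ (l1 ++ 0 :: 1 :: l2) ++ q = (p ++ l1) ++ 0 :: 1 :: (l2 ++ q) := by simp
  have ew' : p ++ (l1 ++ 1 :: 0 :: l2) ++ q = (p ++ l1) ++ 1 :: 0 :: (l2 ++ q) := by simp
  rw [ew, ew']
  have hcnt : l1.count 0 + l2.count 0 + 1 = A ∧ l1.count 1 + l2.count 1 + 1 = B := by
    rw [List.count_append, List.count_cons, List.count_cons] at hc0 hc1
    simp at hc0 hc1
    omega
  have c0 : ((p ++ l1) ++ 0 :: 1 :: (l2 ++ q)).count 0 = A := by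
    simp only [List.count_append, List.count_cons]
    simp
    omega
  have c1 : ((p ++ l1) ++ 0 :: 1 :: (l2 ++ q)).count 1 = N := by
    simp only [List.count_append, List.count_cons]
    simp
    omega
  have c0' : ((p ++ l1) ++ 1 :: 0 :: (l2 ++ q)).count 0 = A := by
    simp only [List.count_append, List.count_cons]
    simp
    omega
  have c1' : ((p ++ l1) ++ 1 :: 0 :: (l2 ++ q)).count 1 = N := by
    simp only [List.count_append, List.count_cons]
    simp
    omega
  have mul : ∀ c, c = 0 ∨ c = 1 → 2 ≤ ((p ++ l1) ++ 0 :: 1 :: (l2 ++ q)).count c := by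
    intro c hc
    rcases hc with rfl | rfl
    · rw [c0]; exact hA
    · rw [c1]; exact hN2
  have mul' : ∀ c, c = 0 ∨ c = 1 → 2 ≤ ((p ++ l1) ++ 1 :: 0 :: (l2 ++ q)).count c := by
    intro c hc
    rcases hc with rfl | rfl
    · rw [c0']; exact hA
    · rw [c1']; exact hN2
  have S := hS ρ hρ.cc (p ++ l1) (l2 ++ q) 0 1
  have S' := hS ρ hρ.cc (p ++ l1) (l2 ++ q) 1 0
  have hz : 0 ∈ l1 ∨ 0 ∈ l2 := by
    by_contra h
    rw [not_or] at h
    have h1 := List.count_eq_zero.2 h.1
    have h2 := List.count_eq_zero.2 h.2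
    omega
  rcases hc with ⟨hp, hq⟩ | ⟨hp, hq, h3⟩ | ⟨hq, hp, h3⟩
  · rcases hz with hz | hz
    · exact S.1 (List.mem_append_right _ hz) (List.mem_append_right _ hq)
    · exact RR.symm (S'.1 (List.mem_append_left _ hp) (List.mem_append_left _ hz))
  · by_cases h0 : 0 ∈ l1
    · exact S.1 (List.mem_append_right _ h0) (List.mem_append_right _ hq)
    have hz2 : 0 ∈ l2 := hz.resolve_left h0
    by_cases h1 : 1 ∈ l1
    · exact RR.symm (S'.1 (List.mem_append_right _ h1) (List.mem_append_left _ hz2))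
    by_cases h2 : 1 ∈ l2
    · refine S.2.1 ?_
      rcases cob01 hz2 h2 (fun c hc => mul c (hl2 c hc)) with h | h
      · exact Or.inl (cob_right q h)
      · exact Or.inr (cob_right q h)
    have e1 := nil_of hl1 h0 h1
    subst e1
    have hM : MVD.Mult l2 (p ++ 1 :: 0 :: (l2 ++ q)) := by
      intro c hc
      have := mul' c (hl2 c hc)
      simpa using this
    rw [List.append_nil] at c0' c1' ⊢
    rcases h3 with h3 | h3
    · exact RR.symm (hρ.l3.2.2 p l2 q 1 0 hz2 h0p h0q hp hM (by rw [c1']; exact hN2)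
        (by rw [c0']; exact h3))
    · exact RR.symm (hρ.l3.2.1 p l2 q 1 0 hz2 h0p h0q hp hM (by rw [c1']; exact h3))
  · by_cases h0 : 0 ∈ l2
    · exact RR.symm (S'.1 (List.mem_append_left _ hp) (List.mem_append_left _ h0))
    have hz2 : 0 ∈ l1 := hz.resolve_right h0
    by_cases h1 : 1 ∈ l2
    · exact S.1 (List.mem_append_right _ hz2) (List.mem_append_left _ h1)
    by_cases h2 : 1 ∈ l1
    · refine S.2.2 ?_
      rcases cob01 hz2 h2 (fun c hc => mul c (hl1 c hc)) with h | h
      · exact Or.inl (cob_left p h)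
      · exact Or.inr (cob_left p h)
    have e1 := nil_of hl2 h0 h1
    subst e1
    rw [List.nil_append] at c0' c1' mul' ⊢
    have hM : MVD.Mult l1 (p ++ (l1 ++ 1 :: 0 :: q)) := by
      intro c hc
      have := mul' c (hl1 c hc)
      rw [← List.append_assoc]
      exact this
    have := hρ.l3.1 p l1 q 1 0 hz2 h0p h0q hq hM (by rw [← List.append_assoc, c1']; exact h3)
    rw [← List.append_assoc, ← List.append_assoc] at this
    exact RR.symm this

/-- exchange of the powers -/
theorem lox_core (hS : SgcStmt) (hL : LclStmt) {ρ : FIC} (hρ : ClC3 ρ) {p q : List ℕ}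
    {A B N : ℕ} (hA : 2 ≤ A) (h0p : 0 ∉ p) (h0q : 0 ∉ q) (hN : p.count 1 + B + q.count 1 = N)
    (hN2 : 2 ≤ N)
    (hc : B = N ∨ B = 0 ∨ (1 ∈ p ∧ 1 ∈ q) ∨ (1 ∉ p ∧ (3 ≤ A ∨ 3 ≤ N)) ∨ (1 ∉ q ∧ 3 ≤ N)) :
    RR ρ (p ++ (List.replicate A 0 ++ List.replicate B 1) ++ q)
      (p ++ (List.replicate B 1 ++ List.replicate A 0) ++ q) := by
  by_cases hB0 : B = 0
  · subst hB0
    simp only [List.replicate_zero, List.append_nil, List.nil_append]
    exact RR.refl _
  by_cases hBN : B = N
  · refine hL ρ hρ.cc p q _ _ 0 1 List.perm_append_comm ?_ ?_ ?_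
    · intro z hz
      rcases List.mem_append.1 hz with h | h
      · exact Or.inl (List.eq_of_mem_replicate h)
      · exact Or.inr (List.eq_of_mem_replicate h)
    · rw [List.count_append, List.count_replicate_self]
      omega
    · rw [List.count_append, List.count_replicate_self]
      omega
  have hpq : 1 ∈ p ∨ 1 ∈ q := by
    by_contra h
    rw [not_or] at h
    have h1 := List.count_eq_zero.2 h.1
    have h2 := List.count_eq_zero.2 h.2
    omega
  have hc' : (1 ∈ p ∧ 1 ∈ q) ∨ (1 ∉ p ∧ 1 ∈ q ∧ (3 ≤ A ∨ 3 ≤ N)) ∨ (1 ∉ q ∧ 1 ∈ p ∧ 3 ≤ N) := by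
    rcases hc with h | h | h | ⟨h, h'⟩ | ⟨h, h'⟩
    · exact absurd h hBN
    · exact absurd h hB0
    · exact Or.inl h
    · exact Or.inr (Or.inl ⟨h, hpq.resolve_left h, h'⟩)
    · exact Or.inr (Or.inr ⟨h, hpq.resolve_right h, h'⟩)
  have hE := sex_lox hS hρ hA h0p h0q hN hN2 hc'
  have := sex_pow hE B A [] []
    (by simp only [List.nil_append, List.append_nil, List.count_append,
          List.count_replicate_self, List.count_replicate]; simp)
    (by simp only [List.nil_append, List.append_nil, List.count_append,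
          List.count_replicate_self, List.count_replicate]; simp)
    (by intro c hc; simp at hc) (by intro c hc; simp at hc)
  simp only [List.nil_append, List.append_nil] at this
  exact this

/-- **LOX** -/
theorem lox (hS : SgcStmt) (hL : LclStmt) : LoxStmt := by
  intro ρ hρ k a b i hi ha hb hloc hc
  have ha0 : ∀ j ≤ k, j ≠ i → a j = 0 := by
    intro j hj hji
    have h1 : a i + a j ≤ deg k a := by
      unfold deg
      have h2 : ∑ m ∈ ({i, j} : Finset ℕ), a m ≤ ∑ m ∈ Finset.range (k + 1), a m := by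
        apply Finset.sum_le_sum_of_subset
        intro m hm
        rw [Finset.mem_insert, Finset.mem_singleton] at hm
        rw [Finset.mem_range]
        omega
      rw [Finset.sum_pair (Ne.symm hji)] at h2
      exact h2
    omega
  have key : ∀ e : ℕ → Bool, e i = false → RR ρ (w2 k a b e) (w2 k a b (flp e i)) := by
    intro e he
    set Bf : ℕ → List ℕ := fun j => bl (a j) (b j) (e j) with hBf
    have hw : w2 k a b e = asm k Bf := rfl
    have hw' : w2 k a b (flp e i) =
        asm k (Function.update Bf i (List.replicate (b i) 1 ++ List.replicate (a i) 0)) := by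
      unfold w2
      apply asm_congr
      intro j hj
      by_cases hji : j = i
      · subst hji
        rw [Function.update_self, flp_same, he]
        simp [bl]
      · rw [Function.update_of_ne hji, flp_ne hji]
    have hBi : Bf i = List.replicate (a i) 0 ++ List.replicate (b i) 1 := by
      rw [hBf]
      simp [bl, he]
    have hns : ∀ c, c = 0 ∨ c = 1 → NS k c := by
      intro c hc hs
      have := hs.1
      omega
    have hcnt : (asm k Bf).count 1 = deg k b := by
      rw [count_asm (hns 1 (Or.inr rfl))]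
      simp only [hBf, count1_bl]
    rw [asm_split hi, hBi, List.count_append, List.count_append, List.count_append,
      List.count_replicate_self] at hcnt
    have hz1 : (List.replicate (a i) 0).count 1 = 0 := by
      rw [List.count_replicate]; simp
    rw [hw', asm_update hi, hw, asm_split hi, hBi]
    have mem1 : ∀ j, 1 ∈ Bf j ↔ 1 ≤ b j := by
      intro j
      rw [← List.count_pos_iff, hBf]
      simp only [count1_bl]
      omega
    have mem0 : ∀ j, 0 ∈ Bf j ↔ 1 ≤ a j := by
      intro j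
      rw [← List.count_pos_iff, hBf]
      simp only [count0_bl]
      omega
    have hp1 : 1 ∈ pre Bf i ↔ ∃ j < i, 1 ≤ b j := by
      rw [mem_pre]
      constructor
      · rintro (h | ⟨j, hj, h⟩)
        · omega
        · exact ⟨j, hj, (mem1 j).1 h⟩
      · rintro ⟨j, hj, h⟩
        exact Or.inr ⟨j, hj, (mem1 j).2 h⟩
    have hq1 : 1 ∈ suf Bf i (k - i) ↔ ∃ j ≤ k, i < j ∧ 1 ≤ b j := by
      rw [mem_suf]
      constructor
      · rintro (h | ⟨j, hj, hj', h⟩)
        · omega
        · exact ⟨j, by omega, hj, (mem1 j).1 h⟩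
      · rintro ⟨j, hj, hj', h⟩
        exact Or.inr ⟨j, hj', by omega, (mem1 j).2 h⟩
    have h0p : 0 ∉ pre Bf i := by
      rw [mem_pre]
      rintro (h | ⟨j, hj, h⟩)
      · omega
      · have := (mem0 j).1 h
        have := ha0 j (by omega) (by omega)
        omega
    have h0q : 0 ∉ suf Bf i (k - i) := by
      rw [mem_suf]
      rintro (h | ⟨j, hj, hj', h⟩)
      · omega
      · have := (mem0 j).1 h
        have := ha0 j (by omega) (by omega)
        omega
    refine lox_core hS hL hρ (N := deg k b) (by omega) h0p h0q (by omega) hb ?_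
    rcases hc with h | h | ⟨h, h'⟩ | ⟨h, h'⟩ | ⟨h, h'⟩
    · exact Or.inl h
    · exact Or.inr (Or.inl h)
    · exact Or.inr (Or.inr (Or.inl ⟨hp1.2 h, hq1.2 h'⟩))
    · refine Or.inr (Or.inr (Or.inr (Or.inl ⟨?_, ?_⟩)))
      · rw [hp1]
        rintro ⟨j, hj, hj'⟩
        have := h j hj
        omega
      · omega
    · refine Or.inr (Or.inr (Or.inr (Or.inr ⟨?_, h'⟩)))
      rw [hq1]
      rintro ⟨j, hj, hj', hj''⟩
      have := h j hj hj'
      omega
  intro e
  cases he : e i
  · exact key e he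
  · have h3 := key (flp e i) (by rw [flp_same, he]; rfl)
    have h4 : flp (flp e i) i = e := by
      funext j
      unfold flp
      split_ifs <;> simp
    rw [h4] at h3
    exact RR.symm h3

end Pool.Agent.MVO.H28
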