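import Pool.Agent.MVO.StmtsL

/-!
# Squad MVO, row LWB: the one letter law over `O2` by reversal
-/

namespace Pool.Agent.MVO.H28

open Pool.Agent.Helper14_MV Pool.Agent.Helper2_MV Pool.Agent.MVO

/-- the reversed vector -/
private def rv (k : ℕ) (a : ℕ → ℕ) : ℕ → ℕ := fun j => a (k - j)

private theorem rv_rv (k : ℕ) (a : ℕ → ℕ) : ∀ j ≤ k, rv k (rv k a) j = a j := by
  intro j hj
  unfold rv
  congr 1
  omega

private theorem deg_rv (k : ℕ) (a : ℕ → ℕ) : deg k (rv k a) = deg k a := by
  unfold deg rv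
  have h := Finset.sum_range_reflect a (k + 1)
  rw [← h]
  apply Finset.sum_congr rfl
  intro j _
  congr 1

private theorem ext_iff (R : FC) (k : ℕ) (a b : ℕ → ℕ) :
    R.R k (rv k (rv k a)) (rv k (rv k b)) ↔ R.R k a b :=
  ⟨fun h => R.ext (rv_rv k a) (rv_rv k b) h,
    fun h => R.ext (fun j hj => (rv_rv k a j hj).symm) (fun j hj => (rv_rv k b j hj).symm) h⟩

/-- **LWB** -/
theorem lwb (hOpf : OpfStmt) (hLwc : LwcStmt) : LwbStmt := by
  intro R S T U hR hS hT hU hRT hRU hSTU k a a' hd hdd hTa hch
  obtain ⟨R', hR', hR3⟩ := hOpf R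
  obtain ⟨S', hS', hS3⟩ := hOpf S
  obtain ⟨T', hT', hT3⟩ := hOpf T
  obtain ⟨U', hU', hU3⟩ := hOpf U
  have key : U'.R k (rv k a) (rv k a') := by
    refine hLwc R' S' T' U' (hR3 hR) (hS3 hS) (hT3 hT) (hU3 hU) ?_ ?_ ?_ k (rv k a) (rv k a')
      ?_ ?_ ?_ ?_
    · intro k x y h
      rw [hT']
      exact hRT k _ _ ((hR' k x y).1 h)
    · intro k x y h
      rw [hU']
      exact hRU k _ _ ((hR' k x y).1 h)
    · intro k x y h1 h2
      rw [hU']
      exact hSTU k _ _ ((hS' k x y).1 h1) ((hT' k x y).1 h2)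
    · rw [deg_rv]; exact hd
    · rw [deg_rv, deg_rv]; exact hdd
    · rw [hT']
      exact (ext_iff T k a a').2 hTa
    · have hlift : ∀ x y, Relation.ReflTransGen (Stp R S k) x y →
          Relation.ReflTransGen (Stp R' S' k) (rv k x) (rv k y) := by
        intro x y h
        induction h with
        | refl => exact Relation.ReflTransGen.refl
        | tail _ hst ih =>
          refine ih.tail ⟨?_, ?_⟩
          · rw [deg_rv, deg_rv]; exact hst.1
          · rcases hst.2 with h | h
            · left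
              rw [hR']
              exact (ext_iff R k _ _).2 h
            · right
              rw [hS']
              exact (ext_iff S k _ _).2 h
      exact hlift a a' hch
  rw [hU'] at key
  exact (ext_iff U k a a').1 key

end Pool.Agent.MVO.H28
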