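import Pool.Agent.MVO.StmtsD

/-!
# Squad MVO, row ND5: the clauses of class Cc
-/

set_option autoImplicit false

namespace Pool.Agent.MVO.H28

open Pool.Agent.MVO Pool.Agent.Helper14_MV Pool.Agent.Helper2_MV

theorem nd5_nc2 {β : FIC} (h : Iso3 β) : NC2 β := by
  intro h1
  have h2 := h _ (h1.append (RR.refl [0]))
  exact absurd h2 (by decide)

/-- **ND5** -/
theorem nd5 (noo : NooStmt) (nd1 : Nd1Stmt) (nd2 : Nd2Stmt) (nd3 : Nd3Stmt) (nd4 : Nd4Stmt) :
    Nd5Stmt := by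
  intro β H
  by_cases h2 : O2 (FC.ofFIC β)
  · exact Or.inr (Or.inl ⟨h2, nd2 β H h2⟩)
  by_cases h3 : O3 (FC.ofFIC β)
  · exact Or.inr (Or.inr (Or.inl ⟨h3, nd3 β H h3⟩))
  rcases noo β H.th (nd5_nc2 H.iso) H.ce H.md with h | h | h | h
  · refine Or.inl ⟨h, ?_⟩
    rcases nd1 β H h h3 with h4 | h4
    · exact Or.inl h4
    · rcases nd4 β H h h2 with h5 | h5
      · exact Or.inl h5
      · exact Or.inr ⟨h4, h5⟩
  · exact absurd h h2
  · exact absurd h h3
  · exact Or.inr (Or.inr (Or.inr h))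

end Pool.Agent.MVO.H28
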