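import Pool.Agent.MVO.StmtsV
import Pool.Agent.Helper51_MVO.NCE

/-!
# Squad MVO, row NV7: the clause of class Va over `O3`
-/

set_option autoImplicit false

namespace Pool.Agent.MVO.H28

open Pool.Agent.Helper14_MV Pool.Agent.Helper2_MV Pool.Agent.MVO
open Pool.Agent.MVO.H51 (psh3 psh2 psh1 deg3 deg2 deg1 bmap4 bmap3 bmap2 pushR cut0 cut1 cut2
  mid01 cent_v)

theorem iso12 (R : FC) (hO1 : ¬ O1 R) (hO2 : ¬ O2 R) (hO3 : O3 R) {p q : ℕ} (h : p + q = 3)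
    (h1 : R.R 1 (v2 1 2) (v2 p q)) : p = 1 ∧ q = 2 := by
  have hp3 : p ≤ 3 := by omega
  interval_cases p
  · have : q = 3 := by omega
    subst this
    exact absurd h1 hO2
  · exact ⟨rfl, by omega⟩
  · have : q = 1 := by omega
    subst this
    exact absurd (R.symm h1) hO1
  · have : q = 0 := by omega
    subst this
    exact absurd (R.symm (R.trans h1 hO3)) hO1

theorem rule7 (R : FC) (hO1 : ¬ O1 R) (hO2 : ¬ O2 R) (hO3 : O3 R) (hJ : ¬ JJd R) {s t : ℕ}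
    (hst : s + t = 1) {x x' : ℕ → ℕ} (h : R.R 3 x x') (hd' : deg 3 x' = 3) (h0 : x 0 = s)
    (h1 : x 1 = t) (h2 : x 2 + x 3 = 2) (h3 : x 3 ≤ 1) :
    x' 0 = s ∧ x' 1 = t ∧ x' 2 = x 2 ∧ x' 3 = x 3 := by
  rw [deg3] at hd'
  have c1 := cut1 R h
  rw [show x 0 + x 1 = 1 by omega, h2] at c1
  obtain ⟨e1, e2⟩ := iso12 R hO1 hO2 hO3 (by omega) c1
  have c2 := cut2 R h
  have e3 : x' 3 ≤ 1 := by
    by_contra hc
    rw [show x' 0 + x' 1 + x' 2 = 1 by omega, show x' 3 = 2 by omega] at c2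
    have := iso12 R hO1 hO2 hO3 (by omega) (R.symm c2)
    omega
  have c0 := cut0 R h
  have e0 : x' 0 = s := by
    by_contra hc
    have : (s = 0 ∧ x' 0 = 1) ∨ (s = 1 ∧ x' 0 = 0) := by omega
    rcases this with ⟨hs, hx⟩ | ⟨hs, hx⟩
    · rw [hx, show x' 1 + x' 2 + x' 3 = 2 by omega] at c0
      have := iso12 R hO1 hO2 hO3 (by omega) (R.symm c0)
      omega
    · rw [h0, hs, show x 1 + x 2 + x 3 = 2 by omega] at c0
      have := iso12 R hO1 hO2 hO3 (by omega) c0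
      omega
  have e4 : x' 3 = x 3 := by
    by_contra hc
    have c3 := mid01 R h
    have : (x 3 = 0 ∧ x' 3 = 1) ∨ (x 3 = 1 ∧ x' 3 = 0) := by omega
    rw [show x 0 + x 1 = 1 by omega, show x' 0 + x' 1 = 1 by omega] at c3
    rcases this with ⟨a, b⟩ | ⟨a, b⟩
    · rw [a, b, show x 2 = 2 by omega, show x' 2 = 1 by omega] at c3
      exact hJ (R.symm c3)
    · rw [a, b, show x 2 = 1 by omega, show x' 2 = 2 by omega] at c3
      exact hJ c3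
  exact ⟨e0, by omega, by omega, e4⟩

/-- the first set -/
def TU (s t : ℕ) (x y : ℕ → ℕ) : Prop :=
  (x 0 = s ∧ x 1 = t ∧ x 2 = 1 ∧ x 3 = 1) ∧ (y 0 = 1 ∧ y 1 = 1 ∧ y 2 = 0 ∧ y 3 = 0)

/-- the second set -/
def TW (s t : ℕ) (x y : ℕ → ℕ) : Prop :=
  (x 0 = s ∧ x 1 = t ∧ x 2 + x 3 = 2 ∧ x 3 ≤ 1) ∧ (y 0 = 1 ∧ y 1 = 1 ∧ y 2 = 0 ∧ y 3 = 0)

theorem TU_ext (s t : ℕ) : TExt 3 (TU s t) := by
  intro a a' b b' h h' hT
  unfold TU at hT ⊢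
  rw [← h 0 (by omega), ← h 1 (by omega), ← h 2 (by omega), ← h 3 (by omega),
    ← h' 0 (by omega), ← h' 1 (by omega), ← h' 2 (by omega), ← h' 3 (by omega)]
  exact hT

theorem TW_ext (s t : ℕ) : TExt 3 (TW s t) := by
  intro a a' b b' h h' hT
  unfold TW at hT ⊢
  rw [← h 0 (by omega), ← h 1 (by omega), ← h 2 (by omega), ← h 3 (by omega),
    ← h' 0 (by omega), ← h' 1 (by omega), ← h' 2 (by omega), ← h' 3 (by omega)]
  exact hT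

theorem TU_deg {s t : ℕ} (hst : s + t = 1) : TDeg 3 (TU s t) := by
  intro a b h
  unfold TU at h
  rw [deg3, deg3]
  omega

theorem TW_deg {s t : ℕ} (hst : s + t = 1) : TDeg 3 (TW s t) := by
  intro a b h
  unfold TW at h
  rw [deg3, deg3]
  omega

theorem TU_mul {s t i : ℕ} (hst : (s = 0 ∧ t = 1 ∧ i = 1) ∨ (s = 1 ∧ t = 0 ∧ i = 0)) :
    TMul 3 i (TU s t) := by
  intro a b h
  unfold TU at h
  rw [deg3, deg3]
  rcases hst with ⟨rfl, rfl, rfl⟩ | ⟨rfl, rfl, rfl⟩ <;> omega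

theorem TW_mul {s t i : ℕ} (hst : (s = 0 ∧ t = 1 ∧ i = 1) ∨ (s = 1 ∧ t = 0 ∧ i = 0)) :
    TMul 3 i (TW s t) := by
  intro a b h
  unfold TW at h
  rw [deg3, deg3]
  rcases hst with ⟨rfl, rfl, rfl⟩ | ⟨rfl, rfl, rfl⟩ <;> omega

/-- value of a pushed vector -/
def pv (f0 f1 f2 f3 p q r u j : ℕ) : ℕ := (if f0 = j then p else 0) +
    (if f1 = j then q else 0) + (if f2 = j then r else 0) + (if f3 = j then u else 0)

theorem comb : ∀ f0 f1 f2 f3 : Fin 4, f0 ≤ f1 → f1 ≤ f2 → f2 ≤ f3 →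
    (((pv f0 f1 f2 f3 0 1 2 0 0 = 0 ∧ pv f0 f1 f2 f3 0 1 2 0 1 = 1 ∧
      pv f0 f1 f2 f3 0 1 2 0 2 + pv f0 f1 f2 f3 0 1 2 0 3 = 2 ∧ pv f0 f1 f2 f3 0 1 2 0 3 ≤ 1) ↔
    (pv f0 f1 f2 f3 0 1 1 1 0 = 0 ∧ pv f0 f1 f2 f3 0 1 1 1 1 = 1 ∧
      pv f0 f1 f2 f3 0 1 1 1 2 + pv f0 f1 f2 f3 0 1 1 1 3 = 2 ∧
      pv f0 f1 f2 f3 0 1 1 1 3 ≤ 1)) ∧
    ((pv f0 f1 f2 f3 1 0 2 0 0 = 1 ∧ pv f0 f1 f2 f3 1 0 2 0 1 = 0 ∧
      pv f0 f1 f2 f3 1 0 2 0 2 + pv f0 f1 f2 f3 1 0 2 0 3 = 2 ∧ pv f0 f1 f2 f3 1 0 2 0 3 ≤ 1) ↔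
    (pv f0 f1 f2 f3 1 0 1 1 0 = 1 ∧ pv f0 f1 f2 f3 1 0 1 1 1 = 0 ∧
      pv f0 f1 f2 f3 1 0 1 1 2 + pv f0 f1 f2 f3 1 0 1 1 3 = 2 ∧
      pv f0 f1 f2 f3 1 0 1 1 3 ≤ 1))) := by
  decide

theorem bt_G (hGVS : GvsStmt) {s t i : ℕ}
    (hst : (s = 0 ∧ t = 1 ∧ i = 1) ∨ (s = 1 ∧ t = 0 ∧ i = 0)) :
    Bt (GV 3 i (TU s t)) 3 (v4 s t 2 0) (v4 1 1 0 0) i := by
  have hst1 : s + t = 1 := by omega
  refine hGVS 3 i (TU s t) (TU_ext s t) (TU_deg hst1) 3 (v4 s t 2 0) (v4 1 1 0 0)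
    (by rw [deg3]; simp [v4]; omega) (by rw [deg3]; simp [v4]) ?_ i
  rintro f hf ⟨⟨h1, h2, h3, h4⟩, -⟩
  rw [psh3] at h1 h2 h3 h4
  have e0 : v4 s t 2 0 0 = s := by simp [v4]
  have e1 : v4 s t 2 0 1 = t := by simp [v4]
  have e2 : v4 s t 2 0 2 = 2 := by simp [v4]
  have e3 : v4 s t 2 0 3 = 0 := by simp [v4]
  rw [e0, e1, e2, e3] at h1 h2 h3 h4
  have hf2 := hf.le 2 (by omega)
  have hc : f 2 = 0 ∨ f 2 = 1 ∨ f 2 = 2 ∨ f 2 = 3 := by omega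
  have hs1 : s ≤ 1 := by omega
  have ht1 : t ≤ 1 := by omega
  clear hst
  rcases hc with h | h | h | h
  · rw [if_pos h] at h1; omega
  · rw [if_pos h] at h2; omega
  · rw [if_pos h] at h3; omega
  · rw [if_pos h] at h4; omega

theorem l1_G (hGVK : GvkStmt) {s t i : ℕ}
    (hst : (s = 0 ∧ t = 1 ∧ i = 1) ∨ (s = 1 ∧ t = 0 ∧ i = 0)) :
    L1 (GV 3 i (TW s t)) 3 (v4 s t 2 0) (v4 s t 1 1) := by
  have hst1 : s + t = 1 := by omega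
  have hi3 : i ≤ 3 := by omega
  refine hGVK 3 i 1 (TW s t) hi3 (TW_ext s t) (TW_deg hst1) (TW_mul hst) ?_ 3 i
    (v4 s t 2 0) (v4 s t 1 1) (by rw [deg3]; simp [v4]; omega) (by rw [deg3]; simp [v4]; omega)
    hi3 ?_ ?_ ?_
  · rintro a b ⟨⟨h1, h2, h3, h4⟩, -⟩
    rcases hst with ⟨rfl, rfl, rfl⟩ | ⟨rfl, rfl, rfl⟩
    · simp [Finset.sum_range_succ]; omega
    · simp; omega
  · rcases hst with ⟨rfl, rfl, rfl⟩ | ⟨rfl, rfl, rfl⟩ <;>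
      simp [Occ, v4, Finset.sum_range_succ]
  · rcases hst with ⟨rfl, rfl, rfl⟩ | ⟨rfl, rfl, rfl⟩ <;>
      simp [Occ, v4, Finset.sum_range_succ]
  · intro f hf y
    unfold TW
    simp only [psh3]
    have e0 : v4 s t 2 0 0 = s := by simp [v4]
    have e1 : v4 s t 2 0 1 = t := by simp [v4]
    have e2 : v4 s t 2 0 2 = 2 := by simp [v4]
    have e3 : v4 s t 2 0 3 = 0 := by simp [v4]
    have g0 : v4 s t 1 1 0 = s := by simp [v4]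
    have g1 : v4 s t 1 1 1 = t := by simp [v4]
    have g2 : v4 s t 1 1 2 = 1 := by simp [v4]
    have g3 : v4 s t 1 1 3 = 1 := by simp [v4]
    rw [e0, e1, e2, e3, g0, g1, g2, g3]
    have m01 := hf.mono 0 1 (by omega) (by omega)
    have m12 := hf.mono 1 2 (by omega) (by omega)
    have m23 := hf.mono 2 3 (by omega) (by omega)
    have l3 := hf.le 3 (by omega)
    have hc := comb ⟨f 0, by omega⟩ ⟨f 1, by omega⟩ ⟨f 2, by omega⟩ ⟨f 3, by omega⟩ m01 m12 m23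
    simp only [pv] at hc
    refine and_congr_left fun _ => ?_
    rcases hst with ⟨rfl, rfl, rfl⟩ | ⟨rfl, rfl, rfl⟩
    · exact hc.1
    · exact hc.2

/-- the main case -/
theorem nv7_aux (hLNN : LnnStmt) (hGVB : GvbStmt) (hGVN : GvnStmt) (hGVS : GvsStmt)
    (hGVK : GvkStmt) (hGAV : GavStmt) (hRGV : RgvStmt) (hWUC : WucStmt) (hISO : IsoStmt)
    (hFV4 : Fv4Stmt) {β : FIC} (H : HypV β) (hO3 : O3 (FC.ofFIC β)) (hO1 : ¬ O1 (FC.ofFIC β))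
    (hO2 : ¬ O2 (FC.ofFIC β)) (hJ : ¬ JJd (FC.ofFIC β)) {s t i : ℕ}
    (hst : (s = 0 ∧ t = 1 ∧ i = 1) ∨ (s = 1 ∧ t = 0 ∧ i = 0)) :
    Bt β 2 (v3 s t 2) (v3 1 1 0) i := by
  by_contra hv
  have hst1 : s + t = 1 := by omega
  have hi3 : i ≤ 3 := by omega
  have hNC : NC2 β := by
    intro h
    have := iso_ab H.iso (a := 0) (b := 1) (by decide) h
    simp at this
  have hsg : deg 3 (sg 0 3) = 3 := by simp [deg3, sg]
  have hsg0 : sg 0 3 0 = 3 := by simp [sg]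
  -- degrees
  have hdeg : ∀ x x' : ℕ → ℕ, (x 0 = s ∧ x 1 = t ∧ x 2 + x 3 = 2 ∧ x 3 ≤ 1) → L1 β 3 x x' →
      deg 3 x' = 3 := by
    intro x x' hx h
    by_contra hd'
    have hd : deg 3 x = 3 := by rw [deg3]; omega
    have h1 := (hWUC (FC.ofFIC β) hO3 (cent_v H.ce) 3 x x' (by omega) (by omega) h).1 0
      (by omega)
    rw [hd] at h1
    have h2 := rule7 (FC.ofFIC β) hO1 hO2 hO3 hJ hst1 h1 hsg hx.1 hx.2.1 hx.2.2.1 hx.2.2.2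
    omega
  have hy : ∀ y y' : ℕ → ℕ, y 0 = 1 ∧ y 1 = 1 ∧ y 2 = 0 ∧ y 3 = 0 → L1 β 3 y y' →
      y' 0 = 1 ∧ y' 1 = 1 ∧ y' 2 = 0 ∧ y' 3 = 0 := by
    intro y y' hy h
    have h1 := hISO β H.th H.iso 3 y y' (by rw [deg3]; omega) (by
      intro j hj
      interval_cases j <;> omega) h
    rw [h1 0 (by omega), h1 1 (by omega), h1 2 (by omega), h1 3 (by omega)]
    exact hy
  -- closure
  have clA : ∀ a b a' b', TU s t a b → L1 β 3 a a' → L1 β 3 b b' → TU s t a' b' := by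
    intro a b a' b' hT ha hb
    obtain ⟨h1, h2⟩ := hT
    have hx : a 0 = s ∧ a 1 = t ∧ a 2 + a 3 = 2 ∧ a 3 ≤ 1 := by omega
    have hd := hdeg a a' hx ha
    have h3 := rule7 (FC.ofFIC β) hO1 hO2 hO3 hJ hst1 ha hd hx.1 hx.2.1 hx.2.2.1 hx.2.2.2
    exact ⟨by omega, hy b b' h2 hb⟩
  have clB : ∀ a b a' b', TW s t a b → L1 β 3 a a' → L1 β 3 b b' → TW s t a' b' := by
    intro a b a' b' hT ha hb
    obtain ⟨hx, h2⟩ := hT
    have hd := hdeg a a' hx ha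
    have h3 := rule7 (FC.ofFIC β) hO1 hO2 hO3 hJ hst1 ha hd hx.1 hx.2.1 hx.2.2.1 hx.2.2.2
    exact ⟨by omega, hy b b' h2 hb⟩
  -- no exchange
  have nex : ∀ x y : ℕ → ℕ, (x 0 = s ∧ x 1 = t ∧ x 2 + x 3 = 2 ∧ x 3 ≤ 1) →
      y 0 = 1 ∧ y 1 = 1 ∧ y 2 = 0 ∧ y 3 = 0 → ¬ Bt β 3 x y i := by
    intro x y hx hy hB
    apply hv
    have hf : v4 0 1 2 2 i = i := by
      rcases hst with ⟨_, _, rfl⟩ | ⟨_, _, rfl⟩ <;> simp [v4]
    have h1 := hFV4 β H.cl 3 2 (v4 0 1 2 2) x y (v3 s t 2) (v3 1 1 0) i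
      (bmap4 (by omega) (by omega) (by omega) (by omega)) hi3
      (by rcases hst with ⟨_, _, rfl⟩ | ⟨_, _, rfl⟩ <;> omega)
      (by rcases hst with ⟨_, _, rfl⟩ | ⟨_, _, rfl⟩ <;> omega)
      (by rw [deg3]; omega) (by rw [deg3]; omega)
      (by
        intro l hl hil hfl
        exfalso
        rw [hf] at hfl
        rcases hst with ⟨_, _, rfl⟩ | ⟨_, _, rfl⟩
        · interval_cases l <;> simp [v4] at hfl
        · interval_cases l <;> simp [v4] at hfl)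
      (by
        intro j hj
        rw [psh3]
        interval_cases j <;> simp [v4, v3] <;> omega)
      (by
        intro j hj
        rw [psh3]
        interval_cases j <;> simp [v4, v3] <;> omega) hB
    rw [hf] at h1
    exact h1
  have hG1 : β ≤ GV 3 i (TU s t) :=
    hGVB β H.th hNC H.cl 3 i (TU s t) hi3 (TU_ext s t) (TU_mul hst) clA
      (fun a b hT => nex a b (by obtain ⟨h1, h2⟩ := hT; omega) hT.2)
  have hG2 : β ≤ GV 3 i (TW s t) :=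
    hGVB β H.th hNC H.cl 3 i (TW s t) hi3 (TW_ext s t) (TW_mul hst) clB
      (fun a b hT => nex a b hT.1 hT.2)
  have hBt := bt_G hGVS hst
  have hL := l1_G hGVK hst
  have hTU : TU s t (v4 s t 1 1) (v4 1 1 0 0) := by simp [TU, v4]
  have hTW : TW s t (v4 s t 1 1) (v4 1 1 0 0) := by simp [TW, v4]
  rcases hLNN β H.th hNC (hGAV β H.cl.1) (hRGV β H.cl) H.md (GV 3 i (TU s t)) (GV 3 i (TW s t))
    hG1 hG2 3 (v4 s t 2 0) (v4 s t 1 1) (v4 1 1 0 0) i (by rw [deg3]; simp [v4])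
    (by rw [deg3]; simp [v4]) (by rw [deg3]; simp [v4]) hi3 hBt hL with h | h
  · exact hGVN 3 i (TU s t) hi3 (TU_ext s t) (TU_mul hst) _ _ hTU h
  · exact hGVN 3 i (TW s t) hi3 (TW_ext s t) (TW_mul hst) _ _ hTW h

/-- **NV7** -/
theorem nv7 (hLNN : LnnStmt) (hGVB : GvbStmt) (hGVN : GvnStmt) (hGVS : GvsStmt)
    (hGVK : GvkStmt) (hGAV : GavStmt) (hRGV : RgvStmt) (hWUC : WucStmt) (_hOCA : OcaStmt)
    (_hOCR : OcrStmt) (hISO : IsoStmt) (hFV1 : Fv1Stmt) (hFV4 : Fv4Stmt) (hFV7 : Fv7Stmt) :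
    Nv7Stmt := by
  intro β H hO3
  by_cases hJ : JJd (FC.ofFIC β)
  · exact Or.inl hJ
  right
  obtain ⟨V0, V2, -⟩ := hFV1 β H.cl
  -- all exchanges of `sg p 3`
  have h7 : ∀ p ≤ 2, ∀ (b : ℕ → ℕ) (i : ℕ), i ≤ 2 → 2 ≤ deg 2 b → Bt β 2 (sg p 3) b i :=
    fun p hp b i hi hb => hFV7 β H.cl 2 p 3 2 1 b i hp hi (by omega) (by omega) (by omega) hb hO3
  have hb : 2 ≤ deg 2 (v3 1 1 0) := by rw [deg2]; simp [v3]
  have main : ∀ (s t i : ℕ), ((s = 0 ∧ t = 1 ∧ i = 1) ∨ (s = 1 ∧ t = 0 ∧ i = 0)) →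
      Bt β 2 (v3 s t 2) (v3 1 1 0) i := by
    intro s t i hst
    by_contra hv
    have hi2 : i ≤ 2 := by omega
    have hO2 : ¬ O2 (FC.ofFIC β) := by
      intro hO2
      apply hv
      have h1 : L1 β 2 (v3 s t 2) (v3 0 0 3) := by
        refine pushR (FC.ofFIC β) 2 (v2 i 2) (bmap2 hi2 (by omega)) hO2 ?_ ?_
        · intro j hj
          rcases hst with ⟨rfl, rfl, rfl⟩ | ⟨rfl, rfl, rfl⟩ <;>
            interval_cases j <;> simp [psh1, v2, v3]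
        · intro j hj
          rcases hst with ⟨rfl, rfl, rfl⟩ | ⟨rfl, rfl, rfl⟩ <;>
            interval_cases j <;> simp [psh1, v2, v3]
      refine V2 2 _ _ _ _ h1 (V0 2 _ _ _ (by rw [deg2]; simp [v3]) hb hi2 ?_)
      rintro ⟨-, h2, -⟩
      rcases hst with ⟨rfl, rfl, rfl⟩ | ⟨rfl, rfl, rfl⟩ <;> simp [v3] at h2
    have hO1 : ¬ O1 (FC.ofFIC β) := by
      intro hO1
      apply hv
      have h0 : (FC.ofFIC β).R 1 (v2 1 2) (v2 3 0) :=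
        (FC.ofFIC β).trans ((FC.ofFIC β).symm hO1) ((FC.ofFIC β).symm hO3)
      have h1 : L1 β 2 (v3 s t 2) (sg i 3) := by
        refine pushR (FC.ofFIC β) 2 (v2 i 2) (bmap2 hi2 (by omega)) h0 ?_ ?_
        · intro j hj
          rcases hst with ⟨rfl, rfl, rfl⟩ | ⟨rfl, rfl, rfl⟩ <;>
            interval_cases j <;> simp [psh1, v2, v3]
        · intro j hj
          rcases hst with ⟨rfl, rfl, rfl⟩ | ⟨rfl, rfl, rfl⟩ <;>
            interval_cases j <;> simp [psh1, v2, sg]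
      exact V2 2 _ _ _ _ h1 (h7 i hi2 _ _ hi2 hb)
    exact hv (nv7_aux hLNN hGVB hGVN hGVS hGVK hGAV hRGV hWUC hISO hFV4 H hO3 hO1 hO2 hJ hst)
  exact ⟨main 0 1 1 (by omega), main 1 0 0 (by omega)⟩

end Pool.Agent.MVO.H28
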