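import Pool.Agent.MVO.StmtsN

/-!
# Squad MVO, row NCA: the first clause of class a over `O1`
-/

namespace Pool.Agent.MVO.H28

open Pool.Agent.Helper14_MV Pool.Agent.Helper2_MV Pool.Agent.MVO

theorem nc2_iso {β : FIC} (H : Iso3 β) : NC2 β := by
  intro h
  have h1 := H _ (h.append (RR.refl (β := β) [0]))
  simp at h1

theorem cent_v2 {β : FIC} (hc : Cent β) :
    ∃ K, ∀ m, K ≤ m → (FC.ofFIC β).R 1 (v2 m 0) (v2 0 m) := by
  obtain ⟨K, hK⟩ := hc
  refine ⟨K, fun m hm => ?_⟩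
  have h := (hK m hm).sub (fun c => if c = 1 then [2] else [c])
  have e0 : (List.replicate m 0).flatMap (fun c => if c = 1 then [2] else [c]) =
      List.replicate m 0 := by
    have : ∀ c ∈ List.replicate m 0, (if c = 1 then [2] else [c]) = [c] := by
      intro c hc
      rw [List.eq_of_mem_replicate hc]
      simp
    rw [flatMap_congr' this, flatMap_self]
  simp only [List.flatMap_append, List.flatMap_cons, e0, List.flatMap_nil] at h
  show RR β (mw 1 (v2 m 0)) (mw 1 (v2 0 m))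
  have e1 : mw 1 (v2 m 0) = List.replicate m 0 ++ [2] := by
    simp [mw, asm, v2]
  have e2 : mw 1 (v2 0 m) = [2] ++ List.replicate m 0 := by
    simp [mw, asm, v2]
  rw [e1, e2]
  simpa using h

theorem deg_one (x : ℕ → ℕ) : deg 1 x = x 0 + x 1 := by
  unfold deg
  rw [Finset.sum_range_succ, Finset.sum_range_one]

theorem psh_one (f x : ℕ → ℕ) (j : ℕ) :
    psh 1 f x j = (if f 0 = j then x 0 else 0) + (if f 1 = j then x 1 else 0) := by
  unfold psh
  rw [Finset.sum_range_succ, Finset.sum_range_one]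

theorem sp_max_one {x : ℕ → ℕ} (h : x 1 ≠ 0) : (sp 1 x).max = ((1 : ℕ) : WithBot ℕ) := by
  apply le_antisymm
  · apply Finset.max_le
    intro a ha
    unfold sp at ha
    rw [Finset.mem_filter, Finset.mem_range] at ha
    exact WithBot.coe_le_coe.2 (by omega)
  · apply Finset.le_max
    unfold sp
    rw [Finset.mem_filter, Finset.mem_range]
    exact ⟨by norm_num, h⟩

theorem bt_ext {ρ : FIC} {k i : ℕ} {a a' b b' : ℕ → ℕ} (h : ∀ j ≤ k, a j = a' j)
    (h' : ∀ j ≤ k, b j = b' j) (hb : Bt ρ k a b i) : Bt ρ k a' b' i := by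
  intro e
  have e1 : ∀ e : ℕ → Bool, w2 k a b e = w2 k a' b' e := by
    intro e
    unfold w2
    exact asm_congr (fun j hj => by rw [h j hj, h' j hj])
  have := hb e
  unfold Ex at this ⊢
  rw [← e1, ← e1]
  exact this

private def T1 (x y : ℕ → ℕ) : Prop := x 0 + x 1 = 3 ∧ 1 ≤ x 0 ∧ 1 ≤ x 1 ∧ y 0 = 1 ∧ y 1 = 1
private def T2 (x y : ℕ → ℕ) : Prop := x 0 + x 1 = 3 ∧ 1 ≤ x 1 ∧ y 0 = 1 ∧ y 1 = 1

private theorem ext_v2 {x : ℕ → ℕ} {p q : ℕ} (h0 : x 0 = p) (h1 : x 1 = q) :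
    ∀ j ≤ 1, x j = v2 p q j := by
  intro j hj
  have : j = 0 ∨ j = 1 := by omega
  rcases this with rfl | rfl
  · simpa [v2] using h0
  · simpa [v2] using h1

/-- **NCA** -/
theorem nca (hLnn : LnnStmt) (hGtb : GtbStmt) (hGtn : GtnStmt) (hGts : GtsStmt)
    (hGtk : GtkStmt) (hGaa : GaaStmt) (hRga : RgaStmt) (hWua : WuaStmt) (_hOaa : OaaStmt)
    (_hOar : OarStmt) (hIso : IsoStmt) (hFaa : FaaStmt) : NcaStmt := by
  intro β H hO1 hnO3
  by_contra hneg
  simp only [not_or] at hneg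
  obtain ⟨hnO2, hns, hns'⟩ := hneg
  obtain ⟨F0, F2, _, _, _, _⟩ := hFaa β H.cl
  have hnc := nc2_iso H.iso
  set R := FC.ofFIC β with hR
  have hO1' : R.R 1 (v2 2 1) (v2 1 2) := hO1
  -- `(0,3) ~ (3,0)` gives the first exchange
  have hs : ¬ R.R 1 (v2 0 3) (v2 3 0) := by
    intro h
    apply hns
    refine F2 1 (v2 0 3) (v2 3 0) (v2 1 1) 1 h ?_
    refine F0 1 (v2 3 0) (v2 1 1) 1 (by rw [deg_one]; simp [v2]) (by rw [deg_one]; simp [v2])
      (le_refl 1) ?_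
    rintro ⟨h1, _⟩
    have h2 := Finset.mem_of_max h1
    unfold sp at h2
    rw [Finset.mem_filter] at h2
    exact h2.2 (by simp [v2])
  -- a type with both blocks is related to `(1,2)` and `(2,1)`
  have hboth : ∀ x : ℕ → ℕ, x 0 + x 1 = 3 → 1 ≤ x 0 → 1 ≤ x 1 →
      R.R 1 x (v2 1 2) ∧ R.R 1 x (v2 2 1) := by
    intro x h3 h0 h1
    have : (x 0 = 1 ∧ x 1 = 2) ∨ (x 0 = 2 ∧ x 1 = 1) := by omega
    rcases this with ⟨e0, e1⟩ | ⟨e0, e1⟩
    · have e := ext_v2 e0 e1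
      refine ⟨R.ext (fun j hj => (e j hj).symm) (fun _ _ => rfl) (R.refl 1 (v2 1 2)),
        R.ext (fun j hj => (e j hj).symm) (fun _ _ => rfl) (R.symm hO1')⟩
    · have e := ext_v2 e0 e1
      refine ⟨R.ext (fun j hj => (e j hj).symm) (fun _ _ => rfl) hO1',
        R.ext (fun j hj => (e j hj).symm) (fun _ _ => rfl) (R.refl 1 (v2 2 1))⟩
  -- no type of `T2` is related to `(3,0)`
  have h30 : ∀ x : ℕ → ℕ, x 0 + x 1 = 3 → 1 ≤ x 1 → ¬ R.R 1 x (v2 3 0) := by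
    intro x h3 h1 h
    by_cases h0 : 1 ≤ x 0
    · apply hnO3
      show R.R 1 (v2 3 0) (v2 2 1)
      exact R.trans (R.symm h) (hboth x h3 h0 h1).2
    · apply hs
      have e := ext_v2 (x := x) (p := 0) (q := 3) (by omega) (by omega)
      exact R.ext e (fun _ _ => rfl) h
  -- the degree is preserved
  have hdeg : ∀ x x' : ℕ → ℕ, x 0 + x 1 = 3 → 1 ≤ x 1 → R.R 1 x x' → x' 0 + x' 1 = 3 := by
    intro x x' h3 h1 h
    by_contra hne
    have hw := hWua R hO1 (cent_v2 H.ce) 1 x x' (by rw [deg_one]; omega)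
      (by rw [deg_one, deg_one, h3]; exact fun e => hne e.symm) h
    have h4 := hw.1 0 (by norm_num)
    apply h30 x h3 h1
    refine R.ext (fun _ _ => rfl) ?_ h4
    intro j hj
    have : j = 0 ∨ j = 1 := by omega
    rw [deg_one, h3]
    rcases this with rfl | rfl
    · simp [sg, v2]
    · simp [sg, v2]
  have hlast : ∀ x x' : ℕ → ℕ, x 0 + x 1 = 3 → 1 ≤ x 1 → R.R 1 x x' → 1 ≤ x' 1 := by
    intro x x' h3 h1 h
    by_contra hne
    have hd := hdeg x x' h3 h1 h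
    apply h30 x h3 h1
    exact R.ext (fun _ _ => rfl) (ext_v2 (by omega) (by omega)) h
  -- the second letter
  have hy : ∀ y y' : ℕ → ℕ, y 0 = 1 → y 1 = 1 → L1 β 1 y y' → y' 0 = 1 ∧ y' 1 = 1 := by
    intro y y' h0 h1 h
    have := hIso β H.th H.iso 1 y y' (by rw [deg_one]; omega) (by
      intro j hj
      have : j = 0 ∨ j = 1 := by omega
      rcases this with rfl | rfl <;> omega) h
    exact ⟨by rw [this 0 (by norm_num), h0], by rw [this 1 (le_refl 1), h1]⟩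
  -- the sets `T1`, `T2`
  have hE1 : TExt 1 T1 := by
    intro a a' b b' ha hb h
    have := ha 0 (by norm_num)
    have := ha 1 (le_refl 1)
    have := hb 0 (by norm_num)
    have := hb 1 (le_refl 1)
    unfold T1 at h ⊢
    omega
  have hE2 : TExt 1 T2 := by
    intro a a' b b' ha hb h
    have := ha 0 (by norm_num)
    have := ha 1 (le_refl 1)
    have := hb 0 (by norm_num)
    have := hb 1 (le_refl 1)
    unfold T2 at h ⊢
    omega
  have hL1 : TLast 1 1 T1 := by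
    rintro a b ⟨h1, h2, h3, h4, h5⟩
    exact ⟨by rw [deg_one]; omega, by rw [deg_one]; omega, sp_max_one (by omega),
      sp_max_one (by omega)⟩
  have hL2 : TLast 1 1 T2 := by
    rintro a b ⟨h1, h3, h4, h5⟩
    exact ⟨by rw [deg_one]; omega, by rw [deg_one]; omega, sp_max_one (by omega),
      sp_max_one (by omega)⟩
  have hD1 : TDeg 1 T1 := by
    rintro a b ⟨h1, h2, h3, h4, h5⟩
    exact ⟨by rw [deg_one]; omega, by rw [deg_one]; omega⟩
  have hD2 : TDeg 1 T2 := by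
    rintro a b ⟨h1, h3, h4, h5⟩
    exact ⟨by rw [deg_one]; omega, by rw [deg_one]; omega⟩
  have hle1 : β ≤ GT 1 T1 := by
    refine hGtb β H.th hnc H.cl 1 1 T1 hE1 hL1 ?_ ?_
    · rintro a b a' b' ⟨h1, h2, h3, h4, h5⟩ haa hbb
      have hd := hdeg a a' h1 h3 haa
      have hl := hlast a a' h1 h3 haa
      have hyy := hy b b' h4 h5 hbb
      refine ⟨hd, ?_, hl, hyy.1, hyy.2⟩
      by_contra hne
      apply hnO2
      show R.R 1 (v2 1 2) (v2 0 3)
      refine R.trans (R.symm (hboth a h1 h2 h3).1) ?_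
      exact R.ext (fun _ _ => rfl) (ext_v2 (by omega) (by omega)) haa
    · rintro a b ⟨h1, h2, h3, h4, h5⟩ hb
      apply hns'
      have h6 := F2 1 (v2 1 2) a b 1 (R.symm (hboth a h1 h2 h3).1) hb
      exact bt_ext (fun _ _ => rfl) (ext_v2 h4 h5) h6
  have hle2 : β ≤ GT 1 T2 := by
    refine hGtb β H.th hnc H.cl 1 1 T2 hE2 hL2 ?_ ?_
    · rintro a b a' b' ⟨h1, h3, h4, h5⟩ haa hbb
      have hyy := hy b b' h4 h5 hbb
      exact ⟨hdeg a a' h1 h3 haa, hlast a a' h1 h3 haa, hyy.1, hyy.2⟩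
    · rintro a b ⟨h1, h3, h4, h5⟩ hb
      by_cases h0 : 1 ≤ a 0
      · apply hns'
        have h6 := F2 1 (v2 1 2) a b 1 (R.symm (hboth a h1 h0 h3).1) hb
        exact bt_ext (fun _ _ => rfl) (ext_v2 h4 h5) h6
      · apply hns
        exact bt_ext (ext_v2 (by omega) (by omega)) (ext_v2 h4 h5) hb
  have hBt : Bt (GT 1 T1) 1 (v2 0 3) (v2 1 1) 1 := by
    refine hGts 1 T1 hE1 hD1 1 (v2 0 3) (v2 1 1) (by rw [deg_one]; simp [v2])
      (by rw [deg_one]; simp [v2]) ?_ 1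
    rintro f hf ⟨_, h2, h3, _, _⟩
    rw [psh_one] at h2 h3
    have e0 : v2 0 3 0 = 0 := by simp [v2]
    rw [e0] at h2 h3
    split_ifs at h2 h3 <;> omega
  have hL : L1 (GT 1 T2) 1 (v2 0 3) (v2 1 2) := by
    refine hGtk 1 T2 hE2 hD2 1 (v2 0 3) (v2 1 2) (by rw [deg_one]; simp [v2])
      (by rw [deg_one]; simp [v2]) (by simp [v2]) (by simp [v2]) ?_
    intro f hf b
    have hf0 := hf.mono 0 1 (by norm_num) (le_refl 1)
    have hf1 := hf.le 1 (le_refl 1)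
    have e0 : v2 0 3 0 = 0 := by simp [v2]
    have e1 : v2 0 3 1 = 3 := by simp [v2]
    have e2 : v2 1 2 0 = 1 := by simp [v2]
    have e3 : v2 1 2 1 = 2 := by simp [v2]
    unfold T2
    rw [psh_one, psh_one, psh_one, psh_one, e0, e1, e2, e3]
    have hc : (f 0 = 0 ∧ f 1 = 0) ∨ (f 0 = 0 ∧ f 1 = 1) ∨ (f 0 = 1 ∧ f 1 = 1) := by omega
    rcases hc with ⟨h0, h1⟩ | ⟨h0, h1⟩ | ⟨h0, h1⟩ <;> simp [h0, h1]
  have hT1 : T1 (v2 1 2) (v2 1 1) := by
    unfold T1
    simp [v2]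
  have hT2 : T2 (v2 1 2) (v2 1 1) := by
    unfold T2
    simp [v2]
  rcases hLnn β H.th hnc (hGaa β H.cl) (hRga β H.cl) H.md (GT 1 T1) (GT 1 T2) hle1 hle2 1
    (v2 0 3) (v2 1 2) (v2 1 1) 1 (by rw [deg_one]; simp [v2]) (by rw [deg_one]; simp [v2])
    (by rw [deg_one]; simp [v2]) (le_refl 1) hBt hL with h | h
  · exact hGtn 1 1 T1 hE1 hL1 (le_refl 1) _ _ hT1 h
  · exact hGtn 1 1 T2 hE2 hL2 (le_refl 1) _ _ hT2 h

end Pool.Agent.MVO.H28
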